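import Mathlib

/-!
# Permutations and three-element subsets in a permutation model: definitions and statements
-/

set_option autoImplicit false

namespace Pool.Agent.W684.PT

open Equiv

/-- The permutation `π` of the set `A` of atoms is symmetric (belongs to the permutation model
given by the group `G` and the finite supports): for some finite set `E` of atoms, `π` is fixed
by all `g` in `G` which fix all members of `E`. -/
def Symm {A : Type} (G : Subgroup (Perm A)) (π : Perm A) : Prop :=
  ∃ E : Finset A, ∀ g ∈ G, (∀ e ∈ E, g e = e) → g * π * g⁻¹ = π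

/-- `π` moves finitely many points -/
def Fty {A : Type} (π : Perm A) : Prop := {x | π x ≠ x}.Finite

/-- three different elements of the same class -/
def Blk {A : Type} (s : A → A → Prop) (x y z : A) : Prop :=
  s x y ∧ s x z ∧ s y z ∧ x ≠ y ∧ x ≠ z ∧ y ≠ z

open Classical in
/-- `X` has one element in each of three different classes, and `p` is the product of the
transpositions of the other two elements in these classes. -/
def TypeOne {A : Type} (s : A → A → Prop) (X : Finset A) (p : Perm A) : Prop :=
  ∃ x x' x'' y y' y'' z z' z'' : A, Blk s x x' x'' ∧ Blk s y y' y'' ∧ Blk s z z' z'' ∧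
    ¬ s x y ∧ ¬ s x z ∧ ¬ s y z ∧ X = {x, y, z} ∧ p = swap x' x'' * swap y' y'' * swap z' z''

open Classical in
/-- `X` has two elements `x`, `y` in a class with the third element `w`, and one element `z` in
another class, and `p` is the product of the transpositions of `x`, `y` and of `w`, `z`. -/
def TypeTwo {A : Type} (s : A → A → Prop) (X : Finset A) (p : Perm A) : Prop :=
  ∃ x y w z : A, Blk s x y w ∧ ¬ s w z ∧ X = {x, y, z} ∧ p = swap x y * swap w z

/-- the permutation `p` coding `X` -/
def Code {A : Type} (s : A → A → Prop) (X : Finset A) (p : Perm A) : Prop :=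
  TypeOne s X p ∨ TypeTwo s X p

/-- all classes have exactly three elements -/
def Three {A : Type} (s : A → A → Prop) : Prop :=
  ∀ x, ∃ y z, Blk s x y z ∧ ∀ u, s x u → u = x ∨ u = y ∨ u = z

/-- The set `A` of atoms with the permutations `cd x` coded by the atoms `x`: the classes of the
atoms coding the same permutation have three elements, all permutations which move finitely many
atoms and are not of type one or two are coded, and the coding is well-founded. -/
structure Sol (A : Type) where
  /-- the permutation coded by the class of `x` -/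
  cd : A → Perm A
  fty : ∀ x, Fty (cd x)
  nc : ∀ x X, ¬ Code (fun u v => cd u = cd v) X (cd x)
  three : Three (fun u v => cd u = cd v)
  surj : ∀ p : Perm A, Fty p → (∀ X, ¬ Code (fun u v => cd u = cd v) X p) → ∃ x, cd x = p
  ind : ∀ Q : A → Prop, (∀ x, (∀ y, cd x y ≠ y → Q y) → Q x) → ∀ x, Q x

/-- The class of `x` occurs hereditarily in `y`. -/
inductive Her {A : Type} (cd : A → Perm A) (x : A) : A → Prop
  | base (y : A) (h : cd x = cd y) : Her cd x y
  | step (y z : A) (h : cd y z ≠ z) (h' : Her cd x z) : Her cd x y

/-- the group of the automorphisms -/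
def Aut {A : Type} (cd : A → Perm A) : Subgroup (Perm A) where
  carrier := {g | ∀ x, cd (g x) = g * cd x * g⁻¹}
  one_mem' := by
    intro x
    simp
  mul_mem' := by
    intro g h hg hh x
    rw [Perm.mul_apply, hg, hh]
    group
  inv_mem' := by
    intro g hg x
    have h := hg (g⁻¹ x)
    have h1 : g (g⁻¹ x) = x := g.apply_symm_apply x
    rw [h1] at h
    rw [h]
    group

theorem mem_aut {A : Type} {cd : A → Perm A} {g : Perm A} :
    g ∈ Aut cd ↔ ∀ x, cd (g x) = g * cd x * g⁻¹ := Iff.rfl

/-! ### The statements -/

open Classical in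
/-- S_COMB1: each set of three elements is coded or is a class -/
def S_COMB1 : Prop :=
  ∀ (A : Type) (s : A → A → Prop), Equivalence s → Three s → ∀ X : Finset A, X.card = 3 →
    (∃ p, Code s X p) ∨ ∃ x y z, Blk s x y z ∧ X = {x, y, z}

open Classical in
/-- S_COMB2: the coding is one to one, and only concerns sets with three elements which are not
classes -/
def S_COMB2 : Prop :=
  ∀ (A : Type) (s : A → A → Prop), Equivalence s → Three s → ∀ (X : Finset A) (p : Perm A),
    Code s X p → X.card = 3 ∧ Fty p ∧ (∀ x y z, Blk s x y z → X ≠ {x, y, z}) ∧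
      (∀ q, Code s X q → q = p) ∧ ∀ Y, Code s Y p → Y = X

/-- S_SOL: existence of the set of atoms -/
def S_SOL : Prop := ∃ A : Type, Nonempty (Sol A)

/-- S_TWIST: existence of automorphisms -/
def S_TWIST : Prop :=
  ∀ (A : Type) (S : Sol A) (x₀ x₁ : A), S.cd x₀ = S.cd x₁ → x₀ ≠ x₁ →
    ∃ g ∈ Aut S.cd, g x₀ = x₁ ∧
      (∀ y, S.cd y = S.cd x₀ → y ≠ x₀ → y ≠ x₁ → g y = y) ∧
      ∀ y, ¬ Her S.cd x₀ y → g y = y

/-- S_FTY: the symmetric permutations are those which move finitely many points -/
def S_FTY : Prop :=
  ∀ (A : Type) (S : Sol A) (π : Perm A), Symm (Aut S.cd) π ↔ Fty π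

end Pool.Agent.W684.PT
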